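import Pool.Agent.H783.HL.Final

/-!
# The Hopf sign for the convex cone generated by nonpositive curvature operators, causal second
# fundamental forms of any codimension, and nonpositive curvature operators of the second kind

Let `R` be the curvature tensor at a point of a Riemannian manifold of dimension `2 m`.
`HopfCone δ R` says that `R` plus `δ` times the tensor of constant curvature one is a finite sum of
algebraic curvature tensors of three kinds:

* the Gauss tensors `∑ β_k ∧ β_k - b ∧ b` of causal forms, of any codimension: `b` and `β_1, …, β_N`
  are symmetric forms such that `(b(x,x), β_1(x,x), …, β_N(x,x))` lies in the closed future light cone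
  of `ℝ^(1,N)` for all `x`;
* tensors which live on a subspace `U` and whose curvature operator of the second kind is nonpositive
  on the symmetric tensors of `U` which are traceless with respect to some inner product of `U` (the
  metric or any other one);
* tensors with nonpositive curvature operator (of the first kind).

Results:

* `Pointwise`: for `HopfCone δ R`, `δ ≥ 0`, `(-1) ^ m` times the Gauss–Bonnet–Chern integrand of `R` is
  at least its value for constant curvature `-δ`.
* `Submanifolds`: this holds for the submanifolds, of any codimension, of every Riemannian manifold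
  with curvature in `HopfCone c` (for instance: curvature operator at most `-c`; hyperbolic space of
  curvature `-c`) whose second fundamental form satisfies `|β(x,x)|² ≤ (c - δ) |x|⁴`.
* `IntegralSign`, `IntegralBound`: the integrated forms; for a closed Riemannian manifold the integral
  is the Euler characteristic (Gauss–Bonnet–Chern).

The cone contains the class `CausalBlocks` of the earlier theorem `CausalSecondForm`, which needed
codimension at most `5` (at most `11` in low dimensions); see `Pool.Agent.H783.HL.blocks_cone`.

Proof. For symmetric forms `B_o` and skew forms `ω_l` the integrand of the tensor of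
`∑ w_o B_o ⊗ B_o + ∑ ω_l ⊗ ω_l` is a positive multiple of `(lap_w + Δ_t)^m det (B(x) + ω(t))`. The
polynomial `det (B(x) + i ω(t))` is real stable with respect to the product of the light cones in the
variables `x`, for all real `t`. The engine is a theorem of Heilmann–Lieb type for light cones
(`S2_Main`, `S4_Param`): if `Ω` is a convex cone and `lap_w q` and `q` have the same sign at `e` for
all homogeneous `Ω`-stable `q` (for the light cone: trace inequality for Lorentzian forms), then
`exp (-lap_w)` preserves the stability in the direction `e`. It is proved by a deformation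
`exp (-τ² (a ∂_e² + b lap_w))` in the parameter `b`: the first member of the family with a multiple
real zero satisfies the Hermite equation, so its lowest homogeneous part at the zero is `Ω`-stable
and annihilated by `a ∂_e² + b lap_w`, which the sign condition forbids. Evaluation of the flow at the
points `(i s e, t)`, `s → 0`, gives the sign of `exp (lap_w) det (B(x) + ω(t))` at `x = 0` for every real
`t`, and the Gaussian mean over `t` gives the integrand.
-/

set_option autoImplicit false

namespace Pool.Agent.Results.MP_5a30bb_gt.CurvatureCone

open Pool.Agent.W666.GB Pool.Agent.W669.HD Pool.Agent.H783.HL MeasureTheory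

/-- The sharp pointwise bound for the cone. -/
def Pointwise : Prop :=
  ∀ (m : ℕ) (V : Type) [NormedAddCommGroup V] [InnerProductSpace ℝ V]
    (e : OrthonormalBasis (Fin m × Bool) ℝ V) (R : V → V → V → V → ℝ) (δ : ℝ), 0 ≤ δ →
    HopfCone δ R → roundGB m δ ≤ (-1) ^ m * gbc e R

/-- Submanifolds of any codimension: `V` is the tangent space of the ambient manifold and `R` its
curvature tensor, `E` is the tangent space of the submanifold, `W` its normal space and `β` its second
fundamental form; the curvature tensor of the submanifold is given by the Gauss equation. -/
def Submanifolds : Prop :=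
  ∀ (m : ℕ) (V W : Type) [NormedAddCommGroup V] [InnerProductSpace ℝ V] [FiniteDimensional ℝ V]
    [NormedAddCommGroup W] [InnerProductSpace ℝ W] [FiniteDimensional ℝ W] (E : Submodule ℝ V)
    (e : OrthonormalBasis (Fin m × Bool) ℝ E) (R : V → V → V → V → ℝ) (β : E → E → W) (c δ : ℝ),
    0 ≤ δ → δ ≤ c → HopfCone c R → SecondFF β → (∀ x, ‖β x x‖ ^ 2 ≤ (c - δ) * ‖x‖ ^ 4) →
    roundGB m δ ≤ (-1) ^ m * gbc e (fun x y z w : E => R x y z w +
      inner ℝ (β x z) (β y w) - inner ℝ (β x w) (β y z))

/-- The integrated sign. -/
def IntegralSign : Prop :=
  ∀ (m : ℕ) (M : Type) [MeasurableSpace M] (μ : Measure M) (K : CurvField m M),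
    (∀ p, HopfCone 0 (K.R p)) → 0 ≤ (-1) ^ m * ∫ p, K.gb p ∂μ

/-- The integrated bound. -/
def IntegralBound : Prop :=
  ∀ (m : ℕ) (M : Type) [MeasurableSpace M] (μ : Measure M) [IsFiniteMeasure μ]
    (K : CurvField m M) (δ : ℝ), 0 ≤ δ → Integrable K.gb μ → (∀ p, HopfCone δ (K.R p)) →
    roundGB m δ * μ.real Set.univ ≤ (-1) ^ m * ∫ p, K.gb p ∂μ

theorem result : Pointwise ∧ Submanifolds ∧ IntegralSign ∧ IntegralBound :=
  ⟨fun _ _ _ _ e _ _ hδ h => cone_bound e hδ h,
    fun _ _ _ _ _ _ _ _ _ E e _ _ _ _ hδ hc hR hs hβ => submanifold_bound E e hδ hc hR hs hβ,
    fun _ _ _ μ K h => field_cone μ K h,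
    fun _ _ _ μ _ K _ hδ hi h => field_coneδ μ K hi hδ h⟩

end Pool.Agent.Results.MP_5a30bb_gt.CurvatureCone
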