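import Pool.Agent.H349.RP.H

/-!
# The Hopf sign in every even dimension: an upper sectional and lower (intermediate) Ricci
curvature bounds

Let `n = 2 m ≥ 4`. Suppose that at a point of a Riemannian `n`-manifold all sectional curvatures are
at most `-c`, and that the Ricci curvatures of the restrictions of the curvature tensor to the
subspaces of dimension `2 j - 1` (the intermediate Ricci curvatures `Ric_{2j-2}`) are at least
`-((2 j - 2) c + r j)`, `3 ≤ j ≤ m`. If `δ = dr m c r = c - (r 3 + ⋯ + r m) / (3 m)` is nonnegative,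
then `(-1)^m` times the Gauss–Bonnet–Chern integrand is at least its value for constant curvature
`-δ`. Nothing is assumed in dimension four.

For all `r j` equal this is a condition on the Ricci curvature: `K ≤ -c` and `Ric ≥ -ρ` with
`ρ ≤ (n + 2 + 12 / (n - 4)) c`. For constant curvature `-c` one has `ρ = (n - 1) c` and equality in
the theorem, for the complex hyperbolic metric (`-4 c ≤ K ≤ -c`) one has `ρ = (n + 2) c` and
`δ = 4 c / n`; so the theorem holds in an explicit neighbourhood of this metric, where the curvature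
operator is in general indefinite.

The curvature bounds may be taken with respect to any other inner product `⟨L⁻¹ x, L⁻¹ y⟩`, and
squares of simple bivectors of any size may be added to the curvature tensor before.

Proof. Put `E_k (R | W)` for the integrand of the restriction of `-R` to a subspace `W` of dimension
`2 k`. Then `k E_k (R) = ⟨R, Q⟩` where the value of the form `Q` on the plane `P` is, up to a
constant, `E_{k-1} (R | P^⊥)`. For two forms `T, Q` with nonnegative sectional values, `T` with the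
Bianchi identity and Ricci curvatures at most `r` on hyperplanes, `⟨T, Q⟩ ≥ - (r / 3) ⟨R₀, Q⟩`
(`comp` in `Pool/Agent/H349/RP/C.lean`): the average over unit vectors `x` of the traces of the
products of the Jacobi operators `T (x, ·, x, ·)`, `Q (x, ·, x, ·)` is, by a quadrature, at least
`2 / (n (n + 2))` times its sum over an orthonormal basis. For `-R = s R₀ + T` this gives
`k E_k ≥ (s - r / 3) dE_k / ds`, and `E_k` is convex in `s` from the threshold for `k - 1` on;
dimension four is the theorem of Chern and Milnor.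
-/

set_option autoImplicit false

namespace Pool.Agent.Results.MP_5a30bb_gt.RicciAllDimensions

open MeasureTheory Pool.Agent.W666.GB Pool.Agent.H349.RP

/-- **The Hopf sign in every even dimension `2 m ≥ 4` for `K ≤ -c` and lower bounds of the
intermediate Ricci curvatures.** -/
theorem result :
    -- (1) the pointwise inequality; the bounds may refer to another inner product (`L`), and
    -- squares of the simple bivectors `a k ∧ b k` may be added to the tensor
    (∀ (m N : ℕ) (V : Type) [NormedAddCommGroup V] [InnerProductSpace ℝ V]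
      (e : OrthonormalBasis (Fin m × Bool) ℝ V) (R : V → V → V → V → ℝ) (L : V →ₗ[ℝ] V)
      (a b : Fin N → V) (c : ℝ) (r : ℕ → ℝ), 2 ≤ m → AlgCurv R → 0 ≤ r 3 → Monotone r →
      SecLe (mod R L a b) c → PRicGe (mod R L a b) c r → 0 ≤ dr m c r →
        roundGB m (dr m c r) ≤ (-1) ^ m * (LinearMap.det L ^ 2 * gbc e R)) ∧
    -- (2) the case of the Ricci curvature, for the given inner product
    (∀ (m : ℕ) (V : Type) [NormedAddCommGroup V] [InnerProductSpace ℝ V]
      (e : OrthonormalBasis (Fin m × Bool) ℝ V) (R : V → V → V → V → ℝ) (c ρ : ℝ), 2 ≤ m →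
      AlgCurv R → SecLe R c → RicGe e R ρ →
      0 ≤ c - (m - 2) * (ρ - (2 * m - 1) * c) / (3 * m) →
        roundGB m (c - (m - 2) * (ρ - (2 * m - 1) * c) / (3 * m)) ≤ (-1) ^ m * gbc e R) ∧
    -- (3) tensors near the complex hyperbolic one
    (∀ (m : ℕ) (V : Type) [NormedAddCommGroup V] [InnerProductSpace ℝ V]
      (e : OrthonormalBasis (Fin m × Bool) ℝ V) (J : V →ₗ[ℝ] V), 2 ≤ m → IsCS J →
      AlgCurv (chT J) ∧ ∀ (R : V → V → V → V → ℝ) (ε : ℝ), 0 ≤ ε → AlgCurv R →
      (∀ x y : V, ‖x‖ = 1 → ‖y‖ = 1 → inner ℝ x y = 0 → |R x y x y - chT J x y x y| ≤ ε) →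
      (2 * m ^ 2 + m - 4) * ε < 6 →
        0 < roundGB m ((6 - (2 * m ^ 2 + m - 4) * ε) / (3 * m)) ∧
        roundGB m ((6 - (2 * m ^ 2 + m - 4) * ε) / (3 * m)) ≤ (-1) ^ m * gbc e R) ∧
    -- (4) the integrated forms
    (∀ (m : ℕ) (M : Type) [MeasurableSpace M] (μ : Measure M) (K : CurvField m M)
      (c : M → ℝ) (r : M → ℕ → ℝ), 2 ≤ m →
      (∀ p, 0 ≤ r p 3 ∧ Monotone (r p) ∧ SecLe (K.R p) (c p) ∧ PRicGe (K.R p) (c p) (r p) ∧
        0 ≤ dr m (c p) (r p)) →
        0 ≤ (-1) ^ m * ∫ p, K.gb p ∂μ ∧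
        (Integrable K.gb μ → Integrable (fun p => roundGB m (dr m (c p) (r p))) μ →
          ∫ p, roundGB m (dr m (c p) (r p)) ∂μ ≤ (-1) ^ m * ∫ p, K.gb p ∂μ) ∧
        (Integrable K.gb μ → μ {p | 0 < dr m (c p) (r p)} ≠ 0 →
          0 < (-1) ^ m * ∫ p, K.gb p ∂μ)) := by
  refine ⟨fun m N V _ _ e R L a b c r hm hR h0 h1 h2 h3 h4 => point hm e hR L a b h0 h1 h2 h3 h4,
    fun m V _ _ e R c ρ hm hR h1 h2 h3 => point_ric hm e hR h1 h2 h3, ?_,
    fun m M _ μ K c r hm h => field hm μ K c r h⟩
  intro m V _ _ e J hm hJ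
  refine ⟨chT_curv hJ, fun R ε hε0 hR hε hlt => ?_⟩
  have hm0 : 0 < m := by omega
  obtain ⟨h1, h2⟩ := near_hyp hR hJ hε
  have h3 := dr_near hm ε
  have h4 : 0 < (6 - (2 * (m : ℝ) ^ 2 + m - 4) * ε) / (3 * m) :=
    div_pos (by linarith) (by positivity)
  refine ⟨roundGB_pos h4, ?_⟩
  have h6 : Monotone (fun j : ℕ => 3 + 2 * (2 * (j : ℝ) - 2) * ε) := by
    intro i j hij
    have : (i : ℝ) ≤ j := by exact_mod_cast hij
    have h7 : 0 ≤ ((j : ℝ) - i) * ε := mul_nonneg (by linarith) hε0
    simp only
    nlinarith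
  have h5 := point0 hm e hR (c := 1 - ε) (r := fun j : ℕ => 3 + 2 * (2 * (j : ℝ) - 2) * ε)
    (by push_cast; nlinarith) h6 h1 h2 (by rw [h3]; exact h4.le)
  rwa [h3] at h5

end Pool.Agent.Results.MP_5a30bb_gt.RicciAllDimensions
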