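import Pool.Agent.H783.Sig.Sk

/-!
# The Hopf sign for submanifolds of hyperbolic space with small second fundamental form, and for
# two-sided pinching of the second kind, with constants free of the dimension

Let `R` be the curvature tensor at a point of a Riemannian manifold of dimension `n = 2 m`. The class
`SignedCone A R` consists of the tensors with

  `-R = (1/2) A ∧ A + (1/2) ∑ h_a ∧ h_a - (1/2) ∑ k_b ∧ k_b + ∑ (ξ_c ∧ η_c)²`,  `A ≥ 0`,
  `∑ h_a(x,x)² + ∑ k_b(x,x)² ≤ (A(x,x) / 1000)²` for all `x`,

with any number of symmetric forms `h_a`, `k_b` and of decomposable two-forms `ξ_c ∧ η_c`. Without the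
squares these are the curvature tensors of the submanifolds of any codimension of pseudo-Riemannian
spaces, with normal spaces of any signature (`h_a`: timelike normals, `k_b`: spacelike normals); the
case `A = √c g` is that of an ambient space of constant curvature `-c`.

* `ConeBound`: `(-1) ^ m` times the Gauss–Bonnet–Chern integrand of `R` is at least
  `(1/4) (1/4) ^ n` times that of `-(1/2) A ∧ A`. The constants do not depend on the dimension and
  on the numbers of the forms.
* `SpaceFormSubmanifolds`: in particular this holds for the submanifolds, of any codimension, of the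
  Riemannian space form of curvature `-c` whose second fundamental form satisfies
  `|II(x,x)| ≤ √c |x|² / 1000`; the normals are spacelike, so that this is the case of the forms
  `k_b`, which decrease `-R`.
* `SecondKindPinching`: the class with `A = √κ g` contains the tensors `-κ R₀ + E₁ + E₂ - squares`
  (`R₀`: constant curvature one) for which the curvature operator of the second kind of `E₁` is
  bounded from above and that of `E₂` from below, by `± t κ (|a|² + (tr a)² / 2)` with the sum of the
  two constants `t` at most `10⁻⁶`. No bound from the other side is needed.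
* `EinsteinPinching`: Einstein tensors with the Ricci tensor of constant curvature `-κ` whose
  curvature operator of the second kind is at least `(1 - 10⁻⁶) κ` on the symmetric matrices of trace
  zero (it is `κ` for constant curvature `-κ`).
* `IntegralBound`: the integrated forms; the integral is the Euler characteristic for a closed
  manifold.

Proof. By the Gaussian representation the integrand is the mean of `Re det (t A + S + i K)` with
`S = ∑ g_a h_a`, `K = ∑ g'_b k_b` and independent standard Gaussian variables. Because of the factor
`i` the determinant oscillates: for `t` of the order `√n` the size of `K` as an operator can be of the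
order `√n` as well and the phase `tr arctan` of the determinant can be of order `n`, so the sign of the
mean over `g'` is not visible from the values. With `w = det (1 + i K)`, holomorphic on a tube around
the real space of the variables `g'`, and `|k_b|` small with the constant `τ`, the gradient of `log w`
is at most a constant times `n τ` on a tube of width a constant times `1 / τ`; so the transport
operator (Gaussian interpolation by rotations, with the gradient of `log w` as coefficient) is a
contraction on the bounded holomorphic functions of the tube if `n τ²` is small, and this gives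
`E w ≥ (1/2) (1/2)^n`. The range of `t` where `n τ²` is not small against `t²`, and the forms `h_a`, are
estimated by the moments of `t` and the means of `K(x,x)^n` and `S(x,x)^n` over the unit ball.
-/

set_option autoImplicit false

namespace Pool.Agent.Results.MP_5a30bb_gt.SignedCone

open Pool.Agent.W666.GB Pool.Agent.W669.HD Pool.Agent.H783.Sig MeasureTheory
open Pool.Agent.Results.MP_5a30bb_gt.SubmanifoldsOfProducts (SecondForm extR sq)

/-- The pointwise bound for the class. -/
def ConeBound : Prop :=
  ∀ (m : ℕ) (V : Type) [NormedAddCommGroup V] [InnerProductSpace ℝ V]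
    (e : OrthonormalBasis (Fin m × Bool) ℝ V) (A : V → V → ℝ) (R : V → V → V → V → ℝ),
    SignedCone A R →
      1 / 4 * (1 / 16) ^ m * ((Matrix.of fun i j => A (e i) (e j)).det * roundGB m 1) ≤
        (-1) ^ m * gbc e R

/-- Submanifolds of the Riemannian space form of curvature `-c`, any codimension (`β` is the second
fundamental form, with values in the normal space `W`), also with squares subtracted. -/
def SpaceFormSubmanifolds : Prop :=
  ∀ (m : ℕ) (V W : Type) [NormedAddCommGroup V] [InnerProductSpace ℝ V]
    [NormedAddCommGroup W] [InnerProductSpace ℝ W] [FiniteDimensional ℝ W]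
    (e : OrthonormalBasis (Fin m × Bool) ℝ V) (β : V → V → W) (c : ℝ) (q : ℕ)
    (ξ η : Fin q → V) (R : V → V → V → V → ℝ), SecondForm β → 0 ≤ c →
    (∀ x, ‖β x x‖ ≤ Real.sqrt c / 1000 * ‖x‖ ^ 2) →
    (∀ x y z w, R x y z w =
      -(c * unitT x y z w) + extR β x y z w - ∑ k, sq (ξ k) (η k) x y z w) →
      SignedCone (fun x y => Real.sqrt c * inner ℝ x y) R ∧
        1 / 4 * (1 / 16) ^ m * roundGB m c ≤ (-1) ^ m * gbc e R

/-- Pinching of the curvature operator of the second kind: one part bounded from above, the other
part from below. -/
def SecondKindPinching : Prop :=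
  ∀ (m : ℕ) (V : Type) [NormedAddCommGroup V] [InnerProductSpace ℝ V]
    (e : OrthonormalBasis (Fin m × Bool) ℝ V) (R E₁ E₂ : V → V → V → V → ℝ) (κ t₁ t₂ : ℝ)
    (q : ℕ) (ξ η : Fin q → V), AlgCurv E₁ → AlgCurv E₂ → 0 ≤ κ → t₁ + t₂ ≤ 1 / 1000000 →
    SecondLe e E₁ (t₁ * κ) → SecondLe e (fun x y z w => - E₂ x y z w) (t₂ * κ) →
    (∀ x y z w, R x y z w =
      -(κ * unitT x y z w) + E₁ x y z w + E₂ x y z w - ∑ k, sq (ξ k) (η k) x y z w) →
      SignedCone (fun x y => Real.sqrt κ * inner ℝ x y) R ∧
        1 / 4 * (1 / 16) ^ m * roundGB m κ ≤ (-1) ^ m * gbc e R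

/-- Einstein tensors. -/
def EinsteinPinching : Prop :=
  ∀ (m : ℕ) (V : Type) [NormedAddCommGroup V] [InnerProductSpace ℝ V]
    (e : OrthonormalBasis (Fin m × Bool) ℝ V) (R : V → V → V → V → ℝ) (κ : ℝ),
    AlgCurv R → 0 ≤ κ → EinsteinLower e R κ →
      SignedCone (fun x y => Real.sqrt κ * inner ℝ x y) R ∧
        1 / 4 * (1 / 16) ^ m * roundGB m κ ≤ (-1) ^ m * gbc e R

/-- The integrated forms. -/
def IntegralBound : Prop :=
  ∀ (m : ℕ) (M : Type) [MeasurableSpace M] (μ : Measure M) (K : CurvField m M)
    (A : ∀ p, K.V p → K.V p → ℝ), (∀ p, SignedCone (A p) (K.R p)) →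
      0 ≤ (-1) ^ m * ∫ p, K.gb p ∂μ ∧
      (Integrable K.gb μ →
        1 / 4 * (1 / 16) ^ m *
          ∫ p, (Matrix.of fun i j => A p (K.e p i) (K.e p j)).det * roundGB m 1 ∂μ ≤
            (-1) ^ m * ∫ p, K.gb p ∂μ)

theorem result : ConeBound ∧ SpaceFormSubmanifolds ∧ SecondKindPinching ∧ EinsteinPinching ∧
    IntegralBound := by
  refine ⟨?_, ?_, ?_, ?_, ?_⟩
  · intro m V _ _ e A R h
    exact signed_bound e h
  · intro m V W _ _ _ _ _ e β c q ξ η R hs hc hb hR
    have h1 := sub_cone hs hc hb ξ η
    have h2 : (fun x y z w => -(c * unitT x y z w) + extR β x y z w -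
        ∑ k, sq (ξ k) (η k) x y z w) = R := by
      funext x y z w
      exact (hR x y z w).symm
    rw [h2] at h1
    exact ⟨h1, signed_round e hc h1⟩
  · intro m V _ _ e R E₁ E₂ κ t₁ t₂ q ξ η hE₁ hE₂ hκ ht h₁ h₂ hR
    have h1 := second_signed e hE₁ hE₂ hκ ht h₁ h₂ ξ η
    have h2 : (fun x y z w => -(κ * unitT x y z w) + E₁ x y z w + E₂ x y z w -
        ∑ k, sq (ξ k) (η k) x y z w) = R := by
      funext x y z w
      exact (hR x y z w).symm
    rw [h2] at h1
    exact ⟨h1, signed_round e hκ h1⟩
  · intro m V _ _ e R κ hR hκ h
    have h1 := einstein_cone e hR hκ h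
    exact ⟨h1, signed_round e hκ h1⟩
  · intro m M _ μ K A h
    exact field_signed μ K A h

end Pool.Agent.Results.MP_5a30bb_gt.SignedCone
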