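import Pool.Agent.H15.GBHw
import Pool.Agent.H15.GBEx
import Pool.Graph.R_pool_sql_team_seeded_843ab51a.Results.MP_5a30bb_gt.PencilTensors

set_option autoImplicit false

/-!
# The Hopf sign for curvature tensors of a symmetric form and a two-form, and for curvature
# tensors invariant under a maximal torus

`AlgCurv R`: `R` is an algebraic curvature tensor; `R x y x y` is the sectional curvature of an
orthonormal pair.  `gbc e R` is the Gauss–Bonnet–Chern integrand in dimension `2 m`, `roundGB m δ`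
the absolute value of its value for constant curvature `-δ`.

`HW T`: for a nonnegative symmetric bilinear form `h`, a two-form `ω` of any rank and a real number
`β` of any sign
`T x y z w = -(h x z h y w - h x w h y z) - β (ω x z ω y w - ω x w ω y z + 2 ω x y ω z w)`,
and the sectional curvatures `-(h x x h y y - (h x y)²) - 3 β (ω x y)²` of `T` are nonpositive.
(If `h` is the metric and `ω` the Kähler form this is a combination of the curvature tensors of the
real and of the complex hyperbolic space.)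

(1) Every such `T` has the Hopf sign on all even-dimensional subspaces.
(2) If `R = S + ∑ P_j - δ · (unit tensor)`, `δ ≥ 0`, where `S` is such a tensor and the `P_j` are
finitely many tensors of nonpositive sectional curvature in the quadratic span of two symmetric
forms with quadratic form not positive definite (for instance `-(x ∧ y)²` or `-(1/2) k ∧ k` for
nonnegative `k`), then `(-1)^m` times the integrand of `R` is at least its value for constant
curvature `-δ`, and the integrand is superadditive.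
(3) The same for tensors of multiply warped type with blocks of such tensors.
(4) The integrated forms.
(5) The torus invariant tensors: let `ξ` be `2 m` linear forms in `m` pairs (for instance the
coordinates of an orthonormal basis), `g_i = ξ_{i,0}² + ξ_{i,1}²`, `θ_i = ξ_{i,0} ∧ ξ_{i,1}`.  The
tensors `-(∑ a_i θ_i² + ∑_{i,j} (b_ij g_i ∧ g_j / 2 + γ_ij R_{θ_i θ_j}))` with symmetric `b`, `γ`
(`torT a b γ ξ`; for orthonormal coordinates they are invariant under the rotations of the `m`
planes) have the Hopf sign if `a_i + b_ii + 3 γ_ii ≥ 0` and the pairs `(b_ij, γ_ij)`, `i ≠ j`,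
belong to a multiplicatively closed subset of `ℝ²` on which `b + 3 γ ≥ 0`; for instance if
`3 |γ_ij| ≤ b_ij` for all `i ≠ j`, or if `b_ij, γ_ij ≥ 0` for all `i ≠ j`.
(6) For `m ≥ 2` there are tensors in `HW` whose curvature operator takes a positive value.
-/

namespace Pool.Agent.Results.MP_5a30bb_gt.TwoFormTensors

open MeasureTheory Pool.Agent.W666.GB Pool.Agent.W669.HD Pool.Agent.Y519.HB Pool.Agent.H15.GB
open Pool.Agent.Results.MP_5a30bb_gt.PencilTensors (PencilN super_aux)
open Pool.Agent.Q61.HP (SemiForm)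

section defs

variable {V : Type} [NormedAddCommGroup V] [InnerProductSpace ℝ V]

/-- The tensors `-(1/2) h ∧ h - β R_ω` of nonpositive sectional curvature, `h` a nonnegative
symmetric form, `ω` a two-form, `β` a real number. -/
def HW (T : V → V → V → V → ℝ) : Prop :=
  ∃ (h ω : V → V → ℝ) (β : ℝ), SemiForm h ∧ TwoForm ω ∧
    (∀ x y z w, T x y z w = -(h x z * h y w - h x w * h y z) -
      β * (ω x z * ω y w - ω x w * ω y z + 2 * (ω x y * ω z w))) ∧
    ∀ x y, T x y x y ≤ 0

/-- `S` plus finitely many tensors in `PencilN` minus `δ` times the unit tensor, `S` in `HW`. -/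
def Sums (δ : ℝ) (R : V → V → V → V → ℝ) : Prop :=
  ∃ (S : V → V → V → V → ℝ) (q : ℕ) (P : Fin q → V → V → V → V → ℝ),
    HW S ∧ (∀ j, PencilN (P j)) ∧
    ∀ a b c d, R a b c d = S a b c d + (∑ j, P j a b c d) - δ * unitT a b c d

/-- Multiply warped type, with blocks that have dimension at most five or carry a tensor in `HW`:
a tensor on each block and one Kulkarni–Nomizu product for each pair of blocks. -/
def Warped (δ : ℝ) (R : V → V → V → V → ℝ) : Prop :=
  ∃ (r : ℕ) (U : Fin r → Submodule ℝ V) (S : Fin r → V → V → V → V → ℝ)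
    (h k : Fin r → Fin r → V → V → ℝ), OrthSum U ∧
    (∀ i, (Module.finrank ℝ (U i) ≤ 5 ∧ AlgCurv (S i)) ∨ HW (S i)) ∧
    (∀ i, LivesOn (U i) (S i)) ∧
    (∀ i j, SymForm (U i) (h i j)) ∧ (∀ i j, SymForm (U j) (k i j)) ∧
    (∀ a b c d, R a b c d + δ * unitT a b c d = (∑ i, S i a b c d) +
      ∑ i, ∑ j, if i < j then kn (h i j) (k i j) a b c d else 0) ∧
    ∀ a b, R a b a b + δ * unitT a b a b ≤ 0

end defs

section proofs

variable {V : Type} [NormedAddCommGroup V] [InnerProductSpace ℝ V]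

theorem HW.curv {T : V → V → V → V → ℝ} (hT : HW T) : AlgCurv T := by
  obtain ⟨h, ω, β, hh, hω, he, -⟩ := hT
  have e : T = hwT h ω β := by
    funext a b c d
    exact he a b c d
  rw [e]
  exact hwT_curv (SymB.of hh) hω β

theorem HW.hopf {T : V → V → V → V → ℝ} (hT : HW T) (U : Submodule ℝ V) : HopfOn U T := by
  obtain ⟨h, ω, β, hh, hω, he, hs⟩ := hT
  intro k E _ e
  have h1 : (fun x y z w : E => T x y z w) =
      hwT (fun x y : E => h x y) (fun x y : E => ω x y) β := by
    funext x y z w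
    exact he _ _ _ _
  rw [h1]
  refine hw_semi e ⟨fun x x' y => hh.add _ _ _, fun t x y => hh.smul _ _ _,
    fun x y => hh.symm _ _, fun x => hh.nonneg _⟩ ⟨fun x x' y => hω.add _ _ _,
    fun t x y => hω.smul _ _ _, fun x y => hω.skew _ _⟩ fun x y => ?_
  rw [← h1]
  exact hs _ _

theorem sums_bound {m : ℕ} (e : OrthonormalBasis (Fin m × Bool) ℝ V) {δ : ℝ} (hδ : 0 ≤ δ)
    {R : V → V → V → V → ℝ} (hR : Sums δ R) : roundGB m δ ≤ (-1) ^ m * gbc e R := by
  obtain ⟨S, q, P, hS, hP, hR⟩ := hR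
  exact PencilTensors.sums_bound e hδ ⟨S, q, P, Or.inr ⟨hS.curv, hS.hopf ⊤⟩, hP, hR⟩

theorem warped_type {δ : ℝ} {R : V → V → V → V → ℝ} (hR : Warped δ R) :
    WarpType δ R := by
  obtain ⟨r, U, S, h, k, hO, hd, hL, hh, hk, hR, hK⟩ := hR
  refine ⟨r, U, S, h, k, hO, fun i => ?_, fun i => ?_, hL, hh, hk, hR, hK⟩
  · rcases hd i with h1 | h1
    · exact Or.inl h1.1
    · exact Or.inr (h1.hopf (U i))
  · rcases hd i with h1 | h1
    · exact h1.2
    · exact h1.curv

theorem warped_bound {m : ℕ} (e : OrthonormalBasis (Fin m × Bool) ℝ V) {δ : ℝ} (hδ : 0 ≤ δ)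
    {R : V → V → V → V → ℝ} (hR : Warped δ R) : roundGB m δ ≤ (-1) ^ m * gbc e R := by
  have hfin : FiniteDimensional ℝ V := e.toBasis.finiteDimensional_of_finite
  exact cls_bound e hδ (Or.inr (Or.inr (warped_type hR)))

theorem all_bound {m : ℕ} (e : OrthonormalBasis (Fin m × Bool) ℝ V) {δ : ℝ} (hδ : 0 ≤ δ)
    {R : V → V → V → V → ℝ} (hR : Sums δ R ∨ Warped δ R) :
    roundGB m δ ≤ (-1) ^ m * gbc e R := by
  rcases hR with h | h
  · exact sums_bound e hδ h
  · exact warped_bound e hδ h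

end proofs

/-- See the text at the head of the file. -/
theorem result :
    -- (1) the sign
    (∀ (m : ℕ) (V : Type) [NormedAddCommGroup V] [InnerProductSpace ℝ V]
      (T : V → V → V → V → ℝ), HW T → AlgCurv T ∧
        (∀ e : OrthonormalBasis (Fin m × Bool) ℝ V, 0 ≤ (-1) ^ m * gbc e T) ∧
        ∀ (E : Submodule ℝ V) (e : OrthonormalBasis (Fin m × Bool) ℝ E),
          0 ≤ (-1) ^ m * gbc e (fun x y z w : E => T x y z w)) ∧
    -- (2) sums: lower bound and superadditivity
    (∀ (m : ℕ) (V : Type) [NormedAddCommGroup V] [InnerProductSpace ℝ V]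
      (e : OrthonormalBasis (Fin m × Bool) ℝ V) (R : V → V → V → V → ℝ) (δ : ℝ), 0 ≤ δ →
      Sums δ R → roundGB m δ ≤ (-1) ^ m * gbc e R) ∧
    (∀ (m : ℕ) (V : Type) [NormedAddCommGroup V] [InnerProductSpace ℝ V]
      (e : OrthonormalBasis (Fin m × Bool) ℝ V) (S T : V → V → V → V → ℝ) (n : ℕ)
      (P : Fin n → V → V → V → V → ℝ) (δ : ℝ), 0 < m → 0 ≤ δ → HW S → (∀ j, PencilN (P j)) →
      (∀ a b c d, T a b c d = (∑ j, P j a b c d) - δ * unitT a b c d) →
      (-1) ^ m * gbc e S + (-1) ^ m * gbc e T ≤ (-1) ^ m * gbc e (addT S T)) ∧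
    -- (3) multiply warped type
    (∀ (m : ℕ) (V : Type) [NormedAddCommGroup V] [InnerProductSpace ℝ V]
      (e : OrthonormalBasis (Fin m × Bool) ℝ V) (R : V → V → V → V → ℝ) (δ : ℝ), 0 ≤ δ →
      Warped δ R → roundGB m δ ≤ (-1) ^ m * gbc e R) ∧
    -- (4) integrated forms
    (∀ (m : ℕ) (M : Type) [MeasurableSpace M] (μ : Measure M) (K : CurvField m M),
      (∀ p, Sums 0 (K.R p) ∨ Warped 0 (K.R p)) → 0 ≤ (-1) ^ m * ∫ p, K.gb p ∂μ) ∧
    (∀ (m : ℕ) (M : Type) [MeasurableSpace M] (μ : Measure M) [IsFiniteMeasure μ]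
      (K : CurvField m M) (δ : ℝ), Integrable K.gb μ → 0 ≤ δ →
      (∀ p, Sums δ (K.R p) ∨ Warped δ (K.R p)) →
        roundGB m δ * μ.real Set.univ ≤ (-1) ^ m * ∫ p, K.gb p ∂μ) ∧
    -- (5) tensors invariant under a maximal torus
    (∀ (m : ℕ) (V : Type) [NormedAddCommGroup V] [InnerProductSpace ℝ V]
      (e : OrthonormalBasis (Fin m × Bool) ℝ V) (ξ : Fin m × Bool → V →ₗ[ℝ] ℝ)
      (a : Fin m → ℝ) (b γ : Fin m → Fin m → ℝ) (C : Set (ℝ × ℝ)), (∀ i j, b i j = b j i) →
      (∀ i j, γ i j = γ j i) → (∀ i, 0 ≤ a i + b i i + 3 * γ i i) →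
      (∀ p ∈ C, ∀ q ∈ C, (p.1 * q.1, p.2 * q.2) ∈ C) → (∀ p ∈ C, 0 ≤ p.1 + 3 * p.2) →
      (∀ i j, i ≠ j → (b i j, γ i j) ∈ C) →
        AlgCurv (torT a b γ ξ) ∧ 0 ≤ (-1) ^ m * gbc e (torT a b γ ξ)) ∧
    -- (6) the curvature operator need not be nonpositive
    (∀ (m : ℕ) (V : Type) [NormedAddCommGroup V] [InnerProductSpace ℝ V]
      (e : OrthonormalBasis (Fin m × Bool) ℝ V), 2 ≤ m → ∃ T : V → V → V → V → ℝ, HW T ∧
        0 < ∑ i, ∑ j, T (e (i, false)) (e (i, true)) (e (j, false)) (e (j, true))) := by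
  refine ⟨?_, fun _ _ _ _ e _ _ hδ hR => sums_bound e hδ hR, ?_,
    fun _ _ _ _ e _ _ hδ hR => warped_bound e hδ hR, ?_, ?_, ?_, ?_⟩
  · intro m V _ _ T hT
    refine ⟨hT.curv, fun e => ?_, fun E e => hT.hopf ⊤ m E le_top e⟩
    obtain ⟨h, ω, β, hh, hω, he, hs⟩ := hT
    have h1 : T = hwT h ω β := by
      funext a b c d
      exact he a b c d
    rw [h1] at hs ⊢
    exact hw_semi e hh hω hs
  · intro m V _ _ e S T n P δ hm hδ hS hP hT
    have hfin : FiniteDimensional ℝ V := e.toBasis.finiteDimensional_of_finite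
    obtain ⟨q, x, y, hxy⟩ := super_aux hP hT
    exact (mono_super hm e hδ hS.curv (fun k _ E e => hS.hopf ⊤ k E le_top e) hxy).1
  · intro m M _ μ K hK
    rw [← integral_const_mul]
    refine integral_nonneg fun p => ?_
    exact (roundGB_nonneg le_rfl).trans (all_bound (K.e p) le_rfl (hK p))
  · intro m M _ μ _ K δ hi hδ hK
    rw [← integral_const_mul]
    have h1 : roundGB m δ * μ.real Set.univ = ∫ _, roundGB m δ ∂μ := by
      rw [integral_const, smul_eq_mul, mul_comm]
    rw [h1]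
    exact integral_mono (integrable_const _) (hi.const_mul _) fun p => all_bound (K.e p) hδ (hK p)
  · intro m V _ _ e ξ a b γ C hb hγ hc hmul hpos hin
    exact ⟨torT_curv a b γ hb hγ ξ, tor_sign e ξ a b γ hb hγ hc C hmul hpos hin⟩
  · intro m V _ _ e hm
    obtain ⟨ω, hω, hs, hp⟩ := example_pos e hm
    exact ⟨_, ⟨fun x y => inner ℝ x y, ω, -(1 / 3), ⟨fun x x' y => inner_add_left _ _ _,
      fun t x y => by simp [inner_smul_left], fun x y => real_inner_comm _ _,
      fun x => real_inner_self_nonneg⟩, hω, fun _ _ _ _ => rfl, hs⟩, hp⟩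

end Pool.Agent.Results.MP_5a30bb_gt.TwoFormTensors
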